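import Mathlib

/-! Definitions and lemma statements for the Faber-Krahn inequality of the infinite mass Dirac
operator on simply connected planar domains. -/

open MeasureTheory Set Filter Topology Real

noncomputable section

namespace H930Z.Dir

/-- open unit disc -/
def disc : Set (ℝ × ℝ) := {w | w.1 ^ 2 + w.2 ^ 2 < 1}
/-- closed unit disc -/
def cdisc : Set (ℝ × ℝ) := {w | w.1 ^ 2 + w.2 ^ 2 ≤ 1}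
/-- the point of angle `θ` on the unit circle -/
def cs (θ : ℝ) : ℝ × ℝ := (Real.cos θ, Real.sin θ)

/-- first coordinate derivative -/
def d1 {F : Type} [NormedAddCommGroup F] [NormedSpace ℝ F] (U : ℝ × ℝ → F) (x : ℝ × ℝ) : F :=
  fderiv ℝ U x (1, 0)
/-- second coordinate derivative -/
def d2 {F : Type} [NormedAddCommGroup F] [NormedSpace ℝ F] (U : ℝ × ℝ → F) (x : ℝ × ℝ) : F :=
  fderiv ℝ U x (0, 1)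

/-- Jacobian determinant of a plane map -/
def jac (Γ : ℝ × ℝ → ℝ × ℝ) (w : ℝ × ℝ) : ℝ :=
  (d1 Γ w).1 * (d2 Γ w).2 - (d1 Γ w).2 * (d2 Γ w).1

/-- density of `dU ∧ dV` -/
def J (U V : ℝ × ℝ → ℂ) (x : ℝ × ℝ) : ℂ := d1 U x * d2 V x - d2 U x * d1 V x

/-- Euclidean length of the gradient -/
def gr (F : ℝ × ℝ → ℝ) (x : ℝ × ℝ) : ℝ := √(d1 F x ^ 2 + d2 F x ^ 2)

/-- `Γ` embeds the closed unit disc, preserving orientation -/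
structure Dom (Γ : ℝ × ℝ → ℝ × ℝ) : Prop where
  smooth : ContDiff ℝ 3 Γ
  inj : InjOn Γ cdisc
  pos : ∀ w ∈ cdisc, 0 < jac Γ w

/-- a point of the plane as a complex number -/
def toC (v : ℝ × ℝ) : ℂ := (v.1 : ℂ) + (v.2 : ℂ) * Complex.I

/-- `Tm Γ w = 2 (α - β conj(w)^2)` where `DΓ(w) v = α v + β conj v`; on the unit circle
`w * Tm Γ w` is a positive multiple of the outer normal at `Γ w`. -/
def Tm (Γ : ℝ × ℝ → ℝ × ℝ) (w : ℝ × ℝ) : ℂ :=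
  (toC (d1 Γ w) - Complex.I * toC (d2 Γ w)) -
    (toC (d1 Γ w) + Complex.I * toC (d2 Γ w)) * (starRingEnd ℂ (toC w)) ^ 2

/-- rate of turning of the outer normal along the boundary curve `θ ↦ Γ (cs θ)` -/
def kk (Γ : ℝ × ℝ → ℝ × ℝ) (θ : ℝ) : ℝ :=
  1 + (deriv (fun t => Tm Γ (cs t)) θ / Tm Γ (cs θ)).im

/-- unit normal of the level set of `φ`, as a complex number -/
def nrm (φ : ℝ × ℝ → ℝ) (x : ℝ × ℝ) : ℂ :=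
  ((fderiv ℝ φ x (1, 0) / √(fderiv ℝ φ x (1, 0) ^ 2 + fderiv ℝ φ x (0, 1) ^ 2) : ℝ) : ℂ) +
    Complex.I *
      ((fderiv ℝ φ x (0, 1) / √(fderiv ℝ φ x (1, 0) ^ 2 + fderiv ℝ φ x (0, 1) ^ 2) : ℝ) : ℂ)

/-- Stokes on the unit disc -/
def S_stokesD : Prop := ∀ U V : ℝ × ℝ → ℂ,
  (∀ w ∈ cdisc, ContDiffAt ℝ 1 U w) → (∀ w ∈ cdisc, ContDiffAt ℝ 2 V w) →
  ∫ w in disc, J U V w = ∫ θ in (-π)..π, U (cs θ) * deriv (fun t => V (cs t)) θ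

/-- change of variables -/
def S_cov : Prop := ∀ Γ, Dom Γ → ∀ H : ℝ × ℝ → ℝ,
  ∫ x in Γ '' disc, H x = ∫ w in disc, jac Γ w * H (Γ w)

/-- Stokes on the image of the disc -/
def S_stokes : Prop := ∀ Γ, Dom Γ → ∀ U V : ℝ × ℝ → ℂ, ContDiff ℝ 1 U → ContDiff ℝ 2 V →
  ∫ x in Γ '' disc, (J U V x).im =
    ∫ θ in (-π)..π, (U (Γ (cs θ)) * deriv (fun t => V (Γ (cs t))) θ).im

/-- total turning `2π`, stable under a cut-off which is `1` on a fixed open set -/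
def S_top : Prop := ∀ Γ, Dom Γ → ∀ O : Set (ℝ × ℝ), IsOpen O → (O ∩ Γ '' disc).Nonempty →
  ∃ C : ℝ, 0 ≤ C ∧ ∀ κ : ℝ × ℝ → ℝ, ContDiff ℝ 1 κ → (∀ x ∈ O, κ x = 1) →
    2 * π - C * ∫ x in Γ '' disc, gr κ x ≤ ∫ θ in (-π)..π, κ (Γ (cs θ)) * kk Γ θ

/-- the boundary condition along the boundary curve -/
def S_bdry : Prop := ∀ Γ, Dom Γ → ∀ φ : ℝ × ℝ → ℝ, ContDiff ℝ 1 φ →
  Γ '' disc = {x | φ x < 0} → (∀ x, φ x = 0 → fderiv ℝ φ x ≠ 0) →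
  ∀ f g : ℝ × ℝ → ℂ, ContDiff ℝ 1 f → ContDiff ℝ 1 g →
  (∀ x, φ x = 0 → Complex.I * nrm φ x * f x = g x) →
  (∀ x, φ x = 0 → Complex.normSq (f x) = Complex.normSq (g x)) ∧
  ∀ θ, φ (Γ (cs θ)) = 0 ∧
    (starRingEnd ℂ (g (Γ (cs θ))) * deriv (fun t => g (Γ (cs t))) θ).im -
      (starRingEnd ℂ (f (Γ (cs θ))) * deriv (fun t => f (Γ (cs t))) θ).im =
      Complex.normSq (f (Γ (cs θ))) * kk Γ θ

/-- isoperimetric inequality, functional form -/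
def S_iso : Prop := ∀ (Ω : Set (ℝ × ℝ)) (F : ℝ × ℝ → ℝ), IsOpen Ω → Bornology.IsBounded Ω →
  ContDiff ℝ 1 F → (∀ x ∈ frontier Ω, F =ᶠ[𝓝 x] fun _ => 0) → (∀ x, 0 ≤ F x) → (∀ x, F x ≤ 1) →
  ∀ S S' : Set (ℝ × ℝ), MeasurableSet S → MeasurableSet S' → S ⊆ Ω → S' ⊆ Ω →
  (∀ x ∈ S, F x = 1) → (∀ x ∈ Ω, F x ≠ 0 → x ∈ S') →
  2 * √π * volume.real S / √(volume.real S') ≤ ∫ x in Ω, gr F x

/-- the one variable profiles -/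
structure Prof (t1 t2 B : ℝ) (pt qt χ m Θ Θ' : ℝ → ℝ) : Prop where
  cp : Continuous pt
  cq : Continuous qt
  cχ : Continuous χ
  cΘ : Continuous Θ'
  dp : ∀ N, HasDerivAt (fun t => (1 - t) * pt t) (pt N - χ N * (1 + N)) N
  dq : ∀ N, HasDerivAt (fun t => (1 + t) * qt t) (χ N * (1 - N) - qt N) N
  rel : ∀ N, (1 - N) ^ 2 * pt N + (1 + N) ^ 2 * qt N = 2
  p0 : pt 0 = 1
  q0 : qt 0 = 1
  mpos : ∀ N, 0 < m N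
  dm : ∀ N, HasDerivAt m (m N * (((1 + N) * qt N - (1 - N) * pt N) / 2)) N
  dΘ : ∀ N, HasDerivAt Θ (Θ' N) N
  Θle : ∀ N, |Θ' N| ≤ χ N * (1 - N ^ 2)
  Θ0 : ∀ N, 0 ≤ Θ N
  Θ1 : ∀ N, Θ N ≤ 1
  Θz : ∀ N, |N| ≤ t1 → Θ N = 0
  Θo : ∀ N, t2 ≤ |N| → Θ N = 1
  χ0 : ∀ N, 0 ≤ χ N
  χB : ∀ N, χ N * (1 - N ^ 2) ≤ B
  χz : ∀ N, χ N ≠ 0 → t1 < |N| ∧ |N| < t2

/-- existence of the profiles -/
def S_prof : Prop := ∀ t1 t2 B : ℝ, 0 < t1 → t1 < t2 → t2 < 1 → 1 < B * (t2 - t1) →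
  ∃ pt qt χ m Θ Θ' : ℝ → ℝ, Prof t1 t2 B pt qt χ m Θ Θ'

/-- Bessel data: `F (x^2) = J₀ x`, `x * G (x^2) = J₁ x`, `j` the first root of `J₀ = J₁` -/
structure Bes (j : ℝ) (F G G' : ℝ → ℝ) : Prop where
  jpos : 0 < j
  sF : ∀ k : ℕ, ContDiff ℝ k F
  sG : ∀ k : ℕ, ContDiff ℝ k G
  dF : ∀ t, HasDerivAt F (-G t / 2) t
  dG : ∀ t, HasDerivAt G (G' t) t
  eG : ∀ t, G t + t * G' t = F t / 2
  F0 : F 0 = 1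
  Fpos : ∀ x ∈ Icc 0 j, 0 < F (x ^ 2)
  Gpos : ∀ x ∈ Icc 0 j, 0 < G (x ^ 2)
  lt : ∀ x ∈ Ico 0 j, x * G (x ^ 2) < F (x ^ 2)
  eq : j * G (j ^ 2) = F (j ^ 2)

/-- existence of the Bessel data -/
def S_bes : Prop := ∃ (j : ℝ) (F G G' : ℝ → ℝ), Bes j F G G'

/-- the one dimensional comparison -/
def S_oneD : Prop := ∀ (j : ℝ) (F G G' : ℝ → ℝ), Bes j F G G' →
  ∀ (E V : ℝ) (A : ℝ → ℝ), 0 < E → (∀ t, 0 ≤ A t) → (∀ t, A t ≤ V) → Antitone A →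
  (∀ t1 t2 k : ℝ, 0 < t1 → t1 < t2 → t2 < 1 → 0 ≤ k →
    (t2 - t1) * (2 * π + k * (2 * √π * A t2 / √(A t1))) ≤
      (E + k * √(1 - t1 ^ 2) / 2) ^ 2 * (A t1 - A t2)) →
  π * (j / E) ^ 2 ≤ V

/-- the eigenfunction of the disc of radius `r` with eigenvalue `j / r` -/
def S_disc : Prop := ∀ (j : ℝ) (F G G' : ℝ → ℝ), Bes j F G G' → ∀ r μ : ℝ, 0 < r → μ = j / r →
  ∃ v₁ v₂ : ℝ × ℝ → ℂ,
    (∀ k : ℕ, ContDiff ℝ k v₁) ∧ (∀ k : ℕ, ContDiff ℝ k v₂) ∧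
    (∃ x : ℝ × ℝ, x.1 ^ 2 + x.2 ^ 2 < r ^ 2 ∧ (v₁ x ≠ 0 ∨ v₂ x ≠ 0)) ∧
    (∀ x : ℝ × ℝ, x.1 ^ 2 + x.2 ^ 2 < r ^ 2 →
      -Complex.I * fderiv ℝ v₂ x (1, 0) - fderiv ℝ v₂ x (0, 1) = (μ : ℂ) * v₁ x ∧
      -Complex.I * fderiv ℝ v₁ x (1, 0) + fderiv ℝ v₁ x (0, 1) = (μ : ℂ) * v₂ x) ∧
    (∀ x : ℝ × ℝ, x.1 ^ 2 + x.2 ^ 2 = r ^ 2 →
      Complex.I * (((x.1 / r : ℝ) : ℂ) + Complex.I * ((x.2 / r : ℝ) : ℂ)) * v₁ x = v₂ x)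

end H930Z.Dir
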